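import Pool.Agent.Lib.MP_0e3b4a_gt.H76.Loca
import Pool.Agent.Lib.MP_0e3b4a_gt.Iface3

/-! # LOCA2: isotropy of the local spans at a good time -/

set_option autoImplicit false

namespace Pool.Agent.CutLoci.H91

open MeasureTheory Set Filter Topology
open Pool.Agent.CutLoci.H76

variable (g : Type) [NormedAddCommGroup g] [NormedSpace ℝ g] [FiniteDimensional ℝ g] (r : ℕ)

theorem loca2 (hM : MultStatement g r) (hR : RangeStatement g r) (hB : BiliStatement g r)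
    (hS : StrucStatement g r) : Loca2Statement g r := by
  intro C u l t ⟨ε, hε0, hεt, hεt1, hQ⟩ y hy z hz
  have ht : t ∈ Ioo (0 : ℝ) 1 := ⟨by linarith, by linarith⟩
  obtain ⟨-, hAc, -⟩ := hS C u (ctl_int u)
  obtain ⟨⟨L, hL'⟩, -⟩ := hB C u
  -- spans over subintervals
  let SP : ℝ → ℝ → Submodule ℝ g := fun a b => Submodule.span ℝ
    {z | ∃ s ∈ Ioo a b ∩ Icc 0 1, ∃ c, z = C.Ad u s (C.X c)}
  have hmono : ∀ {a b a' b' : ℝ}, a' ≤ a → b ≤ b' → SP a b ≤ SP a' b' := by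
    intro a b a' b' h1 h2
    apply Submodule.span_mono
    rintro z ⟨s, hs, a', rfl⟩
    exact ⟨s, ⟨⟨by linarith [hs.1.1], by linarith [hs.1.2]⟩, hs.2⟩, _, rfl⟩
  have hLle : ∀ η, 0 < η → leftS C u t ≤ SP (t - η) t := fun η hη =>
    iInf_le (fun η : {η : ℝ // 0 < η} => Submodule.span ℝ
      {z | ∃ s ∈ Ioo (t - (η : ℝ)) t ∩ Icc 0 1, ∃ a, z = C.Ad u s (C.X a)}) ⟨η, hη⟩
  have hRle : ∀ η, 0 < η → rightS C u t ≤ SP t (t + η) := fun η hη =>
    iInf_le (fun η : {η : ℝ // 0 < η} => Submodule.span ℝ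
      {z | ∃ s ∈ Ioo t (t + (η : ℝ)) ∩ Icc 0 1, ∃ a, z = C.Ad u s (C.X a)}) ⟨η, hη⟩
  -- the spans over the punctured intervals exhaust
  have hLsup : ∀ η, 0 < η → ∃ η', 0 < η' ∧ η' < η ∧ SP (t - η) t ≤ SP (t - η) (t - η') := by
    intro η hη
    obtain ⟨η', h0, h1, h2⟩ := sup_attained (fun η' => SP (t - η) (t - η')) η hη
      (fun a b _ hab => hmono le_rfl (by linarith))
    refine ⟨η', h0, h1, ?_⟩
    refine Submodule.span_le.2 ?_
    rintro z ⟨s, hs, a', rfl⟩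
    refine h2 ((t - s) / 2) (by linarith [hs.1.2]) ?_
    exact Submodule.subset_span ⟨s, ⟨⟨hs.1.1, by linarith [hs.1.2]⟩, hs.2⟩, a', rfl⟩
  have hRsup : ∀ η, 0 < η → ∃ η', 0 < η' ∧ η' < η ∧ SP t (t + η) ≤ SP (t + η') (t + η) := by
    intro η hη
    obtain ⟨η', h0, h1, h2⟩ := sup_attained (fun η' => SP (t + η') (t + η)) η hη
      (fun a b _ hab => hmono (by linarith) le_rfl)
    refine ⟨η', h0, h1, ?_⟩
    refine Submodule.span_le.2 ?_
    rintro z ⟨s, hs, a', rfl⟩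
    refine h2 ((s - t) / 2) (by linarith [hs.1.1]) ?_
    exact Submodule.subset_span ⟨s, ⟨⟨by linarith [hs.1.1], hs.1.2⟩, hs.2⟩, a', rfl⟩
  -- the outer interval
  obtain ⟨η₁, h10, h11, h12⟩ := hLsup (ε / 2) (by linarith)
  obtain ⟨η₂, h20, h21, h22⟩ := hRsup (ε / 2) (by linarith)
  set η := min η₁ η₂ with hηdef
  have hη0 : 0 < η := lt_min h10 h20
  have hη1 : η ≤ η₁ := min_le_left _ _
  have hη2 : η ≤ η₂ := min_le_right _ _
  -- the inner interval
  obtain ⟨δ₁, h30, h31, h32⟩ := hLsup η hη0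
  obtain ⟨δ₂, h40, h41, h42⟩ := hRsup η hη0
  set δ := min δ₁ δ₂ with hδdef
  have hδ0 : 0 < δ := lt_min h30 h40
  have hδ1 : δ ≤ δ₁ := min_le_left _ _
  have hδ2 : δ ≤ δ₂ := min_le_right _ _
  have hδη : δ < η := lt_of_le_of_lt hδ1 h31
  -- the control
  have hy1 : y ∈ Submodule.span ℝ
      {z | ∃ s ∈ Icc (t - η) (t - δ), ∃ c, z = C.Ad u s (C.X c)} := by
    have h5 : y ∈ SP (t - η) (t - δ₁) := h32 (hLle η hη0 hy.1)
    refine Submodule.span_mono ?_ h5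
    rintro z ⟨s, hs, a', rfl⟩
    exact ⟨s, ⟨hs.1.1.le, by linarith [hs.1.2]⟩, a', rfl⟩
  have hy2 : y ∈ Submodule.span ℝ
      {z | ∃ s ∈ Icc (t + δ) (t + η), ∃ c, z = C.Ad u s (C.X c)} := by
    have h5 : y ∈ SP (t + δ₂) (t + η) := h42 (hRle η hη0 hy.2)
    refine Submodule.span_mono ?_ h5
    rintro z ⟨s, hs, a', rfl⟩
    exact ⟨s, ⟨by linarith [hs.1.1], hs.1.2.le⟩, a', rfl⟩
  obtain ⟨x1, hx1, hW1⟩ := exists_var hR hB C u (by linarith) (by linarith) (by linarith) hy1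
  obtain ⟨x2, hx2, hW2⟩ := exists_var hR hB C u (by linarith) (by linarith) (by linarith) hy2
  have hx1' : x1 ∈ suppSub r (t - η) (t + η) := by
    rw [mem_suppSub]
    exact hx1.mono fun p hp h => hp fun h' => h ⟨h'.1, by linarith [h'.2]⟩
  have hx2' : x2 ∈ suppSub r (t - η) (t + η) := by
    rw [mem_suppSub]
    exact hx2.mono fun p hp h => hp fun h' => h ⟨by linarith [h'.1], h'.2⟩
  have hx : SuppIn (x1 - x2 : Ctl r) (t - η) (t + η) := (suppSub r _ _).sub_mem hx1' hx2'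
  have hWsub : ∀ s ∈ Icc (0 : ℝ) 1, C.W u (x1 - x2 : Ctl r) s = C.W u x1 s - C.W u x2 s := by
    intro s hs
    rw [← hL' s hs, ← hL' s hs, ← hL' s hs, map_sub]
  have hK : C.Ker u (x1 - x2 : Ctl r) := by
    rw [Carnot.Ker, hWsub 1 (right_mem_Icc.2 zero_le_one), hW1, hW2, sub_self]
  have hWt : ∀ s ∈ Ioo (t - δ) (t + δ), C.W u (x1 - x2 : Ctl r) s = y := by
    intro s hs
    have hs0 : 0 ≤ s := by linarith [hs.1]
    have hs1 : s ≤ 1 := by linarith [hs.2]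
    rw [hWsub s ⟨hs0, hs1⟩, ← W_after C u hAc x1 hx1 hs0 hs1 hs.1.le, hW1,
      W_before C u x2 hx2 hs0 hs1 hs.2.le, sub_zero]
  have hW0 : ∀ s ∈ Icc (0 : ℝ) 1, s ≤ t - η ∨ t + η ≤ s → C.W u (x1 - x2 : Ctl r) s = 0 := by
    rintro s hs (h | h)
    · exact W_before C u _ hx hs.1 hs.2 h
    · rw [← W_after C u hAc (x1 - x2) hx hs.1 hs.2 h]
      exact hK
  have hxε : SuppIn (x1 - x2 : Ctl r) (t - ε) (t + ε) :=
    hx.mono fun p hp h => hp fun h' => h ⟨by linarith [h'.1], by linarith [h'.2]⟩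
  obtain ⟨m, hm⟩ := hM C u l (t - ε) (t + ε) (by linarith) (by linarith) (by linarith)
    (x1 - x2) hK hxε fun y' hy' hy'' => hQ (x1 - x2) y' hK hy' hxε hy''
  have hmL : SP (t - ε / 2) (t - η₁) ≤ LinearMap.ker m.toLinearMap := by
    refine Submodule.span_le.2 ?_
    rintro z ⟨s, hs, a', rfl⟩
    have h5 := hm s ⟨by linarith [hs.1.1], by linarith [hs.1.2]⟩ a'
    rw [hW0 s hs.2 (Or.inl (by linarith [hs.1.2]))] at h5
    simp only [map_zero, zero_apply] at h5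
    exact h5.symm
  have hmR : SP (t + η₂) (t + ε / 2) ≤ LinearMap.ker m.toLinearMap := by
    refine Submodule.span_le.2 ?_
    rintro z ⟨s, hs, a', rfl⟩
    have h5 := hm s ⟨by linarith [hs.1.1], by linarith [hs.1.2]⟩ a'
    rw [hW0 s hs.2 (Or.inr (by linarith [hs.1.1]))] at h5
    simp only [map_zero, zero_apply] at h5
    exact h5.symm
  -- the two functionals agree on the inner span
  have hin : ∀ a b : ℝ, t - δ ≤ a → b ≤ t + δ → ∀ z ∈ SP a b, l (C.br y z) = m z := by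
    intro a b ha hb z hz
    refine Submodule.span_induction ?_ ?_ ?_ ?_ hz
    · rintro _ ⟨s, hs, c, rfl⟩
      have hs' : s ∈ Ioo (t - δ) (t + δ) := ⟨by linarith [hs.1.1], by linarith [hs.1.2]⟩
      have h5 := hm s ⟨by linarith [hs'.1], by linarith [hs'.2]⟩ c
      rw [hWt s hs'] at h5
      exact h5
    · simp
    · intro a b _ _ ha hb
      rw [map_add, map_add, map_add, ha, hb]
    · intro c a _ ha
      rw [map_smul, map_smul, map_smul, ha]
  obtain ⟨z1, hz1, z2, hz2, rfl⟩ := Submodule.mem_sup.1 hz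
  have e1 : m z1 = 0 := hmL (h12 (hLle _ (by linarith) hz1))
  have e2 : m z2 = 0 := hmR (h22 (hRle _ (by linarith) hz2))
  have e3 := hin (t - δ) t le_rfl (by linarith) z1 (hLle δ hδ0 hz1)
  have e4 := hin t (t + δ) (by linarith) le_rfl z2 (hRle δ hδ0 hz2)
  rw [map_add, map_add, e3, e4, e1, e2, add_zero]

end Pool.Agent.CutLoci.H91
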